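import Mathlib

namespace Pool.Agent.Results.MP_a15e14_gt.Metric

/-- The point pair function `|x - y| / √(|x - y|² + 4 d(x) d(y))` for a distance function `d`. -/
noncomputable def pp {n : ℕ} (d : EuclideanSpace ℝ (Fin n) → ℝ) (x y : EuclideanSpace ℝ (Fin n)) :
    ℝ :=
  ‖x - y‖ / √(‖x - y‖ ^ 2 + 4 * d x * d y)

/-- The distance `√(x₁² + x₂²)` to the `z`-axis of `ℝ³`. -/
noncomputable def dZ (x : EuclideanSpace ℝ (Fin 3)) : ℝ := √(x 0 ^ 2 + x 1 ^ 2)

theorem alg {a b c p q r : ℝ} (ha : 0 ≤ a) (hb : 0 ≤ b) (hc : 0 ≤ c) (hp : 0 < p) (hq : 0 < q)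
    (hr : 0 < r) (h : 2 * r * a ≤ b * √(c ^ 2 + 4 * r * q) + c * √(b ^ 2 + 4 * p * r)) :
    a / √(a ^ 2 + 4 * p * q) ≤ b / √(b ^ 2 + 4 * p * r) + c / √(c ^ 2 + 4 * r * q) := by
  set B := √(b ^ 2 + 4 * p * r) with hB
  set C := √(c ^ 2 + 4 * r * q) with hC
  have B0 : 0 < B := Real.sqrt_pos.2 (by positivity)
  have C0 : 0 < C := Real.sqrt_pos.2 (by positivity)
  have B2 : B ^ 2 = b ^ 2 + 4 * p * r := Real.sq_sqrt (by positivity)
  have C2 : C ^ 2 = c ^ 2 + 4 * r * q := Real.sq_sqrt (by positivity)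
  have A0 : 0 < a ^ 2 + 4 * p * q := by positivity
  rw [div_add_div _ _ B0.ne' C0.ne', div_le_div_iff₀ (Real.sqrt_pos.2 A0) (by positivity)]
  set S := b * C + B * c with hS
  have S0 : 0 ≤ S := by positivity
  have hS' : 2 * r * a ≤ S := by rw [hS]; linarith
  refine (sq_le_sq₀ (by positivity) (by positivity)).1 ?_
  rw [mul_pow S, Real.sq_sqrt A0.le]
  have e : (B * C + b * c) ^ 2 = S ^ 2 + 16 * r ^ 2 * p * q := by
    have : (B * C + b * c) ^ 2 - S ^ 2 = (B ^ 2 - b ^ 2) * (C ^ 2 - c ^ 2) := by rw [hS]; ring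
    rw [B2, C2] at this
    linarith
  have h1 : (B * C) ^ 2 ≤ S ^ 2 + 16 * r ^ 2 * p * q := by
    rw [← e]
    exact pow_le_pow_left₀ (by positivity) (le_add_of_nonneg_right (by positivity)) 2
  have h2 : (2 * r * a) ^ 2 ≤ S ^ 2 := pow_le_pow_left₀ (by positivity) hS' 2
  have h3 := mul_le_mul_of_nonneg_left h1 (sq_nonneg a)
  have h4 := mul_le_mul_of_nonneg_left h2 (show 0 ≤ 4 * p * q by positivity)
  nlinarith

theorem gen {n : ℕ} (d : EuclideanSpace ℝ (Fin n) → ℝ) (x y z w : EuclideanSpace ℝ (Fin n))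
    (hx : 0 < d x) (hy : 0 < d y) (hz : 0 < d z) (h0 : ‖z - w‖ = 2 * d z)
    (h1 : ‖y - w‖ ^ 2 ≤ ‖z - y‖ ^ 2 + 4 * d z * d y)
    (h2 : ‖x - w‖ ^ 2 ≤ ‖x - z‖ ^ 2 + 4 * d x * d z) : pp d x y ≤ pp d x z + pp d z y := by
  refine alg (norm_nonneg _) (norm_nonneg _) (norm_nonneg _) hx hy hz ?_
  have h := EuclideanGeometry.mul_dist_le_mul_dist_add_mul_dist x z y w
  simp only [dist_eq_norm] at h
  rw [h0] at h
  have a1 := mul_le_mul_of_nonneg_left (Real.le_sqrt_of_sq_le h1) (norm_nonneg (x - z))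
  have a2 := mul_le_mul_of_nonneg_left (Real.le_sqrt_of_sq_le h2) (norm_nonneg (z - y))
  linarith

theorem sub_case {n : ℕ} (K : Submodule ℝ (EuclideanSpace ℝ (Fin n)))
    (x y z : EuclideanSpace ℝ (Fin n)) (hx : x ∉ K) (hy : y ∉ K) (hz : z ∉ K) :
    pp (fun v => Metric.infDist v K) x y ≤
      pp (fun v => Metric.infDist v K) x z + pp (fun v => Metric.infDist v K) z y := by
  have hd : ∀ v, Metric.infDist v K = ‖v - K.starProjection v‖ := fun v => by
    rw [Submodule.starProjection_minimal, Metric.infDist_eq_iInf]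
    simp only [dist_eq_norm]
    rfl
  have pos : ∀ v, v ∉ K → 0 < Metric.infDist v K := fun v hv => by
    rw [hd, norm_pos_iff, sub_ne_zero]
    exact fun e => hv (e ▸ K.starProjection_apply_mem v)
  have key : ∀ v, ‖v - (z - (2 : ℝ) • (z - K.starProjection z))‖ ^ 2 ≤
      ‖v - z‖ ^ 2 + 4 * Metric.infDist v K * Metric.infDist z K := fun v => by
    rw [hd, hd]
    set u := z - K.starProjection z with hu
    have e : v - (z - (2 : ℝ) • u) = (v - z) + (2 : ℝ) • u := by abel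
    have o : inner ℝ (K.starProjection v - K.starProjection z) u = 0 :=
      Submodule.inner_right_of_mem_orthogonal
        (K.sub_mem (K.starProjection_apply_mem v) (K.starProjection_apply_mem z))
        (K.sub_starProjection_mem_orthogonal z)
    have e2 : v - z = (v - K.starProjection v) + (K.starProjection v - K.starProjection z) - u := by
      rw [hu]; abel
    have e3 : inner ℝ (v - z) u = inner ℝ (v - K.starProjection v) u - ‖u‖ ^ 2 := by
      rw [e2, inner_sub_left, inner_add_left, o, real_inner_self_eq_norm_sq, add_zero]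
    rw [e, norm_add_sq_real, inner_smul_right, e3, norm_smul]
    have := real_inner_le_norm (v - K.starProjection v) u
    simp only [Real.norm_ofNat]
    nlinarith
  refine gen _ x y z (z - (2 : ℝ) • (z - K.starProjection z)) (pos x hx) (pos y hy) (pos z hz)
    ?_ ?_ (key x)
  · rw [sub_sub_cancel, norm_smul, hd]; simp
  · rw [norm_sub_rev z y]; linarith [key y]

theorem line_case (x y z : EuclideanSpace ℝ (Fin 3)) (hx : 0 < dZ x) (hy : 0 < dZ y)
    (hz : 0 < dZ z) : pp dZ x y ≤ pp dZ x z + pp dZ z y := by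
  have key : ∀ v : EuclideanSpace ℝ (Fin 3), ‖v - !₂[-z 0, -z 1, z 2]‖ ^ 2 ≤
      ‖v - z‖ ^ 2 + 4 * dZ v * dZ z := fun v => by
    have : v 0 * z 0 + v 1 * z 1 ≤ dZ v * dZ z := by
      rw [dZ, dZ, ← Real.sqrt_mul (by positivity)]
      exact Real.le_sqrt_of_sq_le (by nlinarith [sq_nonneg (v 0 * z 1 - v 1 * z 0)])
    simp only [EuclideanSpace.real_norm_sq_eq, Fin.sum_univ_three, PiLp.sub_apply]
    simp
    nlinarith
  refine gen _ x y z !₂[-z 0, -z 1, z 2] hx hy hz ?_ ?_ (key x)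
  · refine (sq_eq_sq₀ (norm_nonneg _) (by positivity)).1 ?_
    rw [mul_pow, dZ, Real.sq_sqrt (by positivity)]
    simp only [EuclideanSpace.real_norm_sq_eq, Fin.sum_univ_three, PiLp.sub_apply]
    simp
    ring
  · rw [norm_sub_rev z y]; linarith [key y]

/-- The point pair function satisfies the triangle inequality on `ℝ³` minus the `z`-axis, and on
the complement of any linear subspace of `ℝⁿ`. -/
theorem result :
    (∀ x y z : EuclideanSpace ℝ (Fin 3), (x 0 ≠ 0 ∨ x 1 ≠ 0) → (y 0 ≠ 0 ∨ y 1 ≠ 0) →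
      (z 0 ≠ 0 ∨ z 1 ≠ 0) → pp dZ x y ≤ pp dZ x z + pp dZ z y) ∧
    ∀ (n : ℕ) (K : Submodule ℝ (EuclideanSpace ℝ (Fin n))) (x y z : EuclideanSpace ℝ (Fin n)),
      x ∉ K → y ∉ K → z ∉ K → pp (fun v => Metric.infDist v K) x y ≤
        pp (fun v => Metric.infDist v K) x z + pp (fun v => Metric.infDist v K) z y := by
  have pos : ∀ x : EuclideanSpace ℝ (Fin 3), (x 0 ≠ 0 ∨ x 1 ≠ 0) → 0 < dZ x := by
    rintro x (h | h) <;> exact Real.sqrt_pos.2 (by positivity)
  exact ⟨fun x y z hx hy hz => line_case x y z (pos x hx) (pos y hy) (pos z hz),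
    fun n K x y z => sub_case K x y z⟩

end Pool.Agent.Results.MP_a15e14_gt.Metric
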